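import Pool.Agent.helper9.TH.Spec

/-!
# Row FR of MP_fd6eef_al (Frobenius's normal p-complement theorem)
-/

namespace Pool.Agent.helper37.TH

open Pool.Agent.helper9.TH
open scoped commutatorElement

universe u

/-- The normalizer of `D` in `M` maps into the normalizer of the image of `D`. -/
theorem mem_norm_map {G : Type u} [Group G] (M : Subgroup G) (D : Subgroup M) (x : M)
    (hx : x ∈ Subgroup.normalizer (D : Set M)) :
    (x : G) ∈ Subgroup.normalizer ((D.map M.subtype : Subgroup G) : Set G) := by
  rw [Subgroup.mem_normalizer_iff] at hx ⊢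
  intro n
  constructor
  · rintro ⟨d, hd, rfl⟩
    exact ⟨x * d * x⁻¹, (hx d).1 hd, by simp⟩
  · rintro ⟨d, hd, h⟩
    have h1 : n = ((x⁻¹ * d * x : M) : G) := by
      have h2 : (d : G) = x * n * (x : G)⁻¹ := h
      simp only [Subgroup.coe_mul, Subgroup.coe_inv, h2]
      group
    rw [h1]
    refine ⟨x⁻¹ * d * x, (hx _).2 ?_, rfl⟩
    have h3 : x * (x⁻¹ * d * x) * x⁻¹ = d := by group
    rw [h3]
    exact hd

/-- `HN` passes to subgroups. -/
theorem HN_sub (hPBa : PBa_stmt.{u}) (p : ℕ) (hp : p.Prime) (G : Type u) [Group G] [Finite G]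
    (h : HN p G) (M : Subgroup G) : HN p M := by
  intro D hD hne
  have h1 : IsPGroup p (D.map M.subtype) := hD.map _
  have h2 : D.map M.subtype ≠ ⊥ := by
    intro h3
    exact hne ((Subgroup.map_eq_bot_iff_of_injective D M.subtype_injective).1 h3)
  refine hPBa.1 p _ _ hp ((M.subtype.comp (Subgroup.normalizer (D : Set M)).subtype).codRestrict
    (Subgroup.normalizer ((D.map M.subtype : Subgroup G) : Set G))
    fun x => mem_norm_map M D x.1 x.2) ?_ (h _ h1 h2)
  intro x y hxy
  have h3 := congrArg Subtype.val hxy
  exact Subtype.ext (Subtype.ext h3)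

theorem FR (hFC : FC_stmt.{u}) (hPBa : PBa_stmt.{u}) (hPBb : PBb_stmt.{u}) : FR_stmt.{u} := by
  intro p G₀ _ _ hp hG₀
  have key : ∀ n : ℕ, ∀ (G : Type u) [Group G] [Finite G], Nat.card G = n → HN p G → PN p G := by
    intro n
    induction n using Nat.strong_induction_on with
    | _ n ih =>
      intro G _ _ hn hHN
      have : Fact p.Prime := ⟨hp⟩
      obtain ⟨P⟩ := (inferInstance : Nonempty (Sylow p G))
      by_cases hP : (P : Subgroup G) = ⊥
      · refine ⟨⊤, inferInstance, ?_, 0, by simp⟩
        have h1 := P.not_dvd_index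
        rw [hP, Subgroup.index_bot] at h1
        rw [Subgroup.card_top]
        exact ((Nat.Prime.coprime_iff_not_dvd hp).2 h1).symm
      · have hfoc : P.focalSubgroupOf ≤ commutator P := by
          rw [Subgroup.focalSubgroupOf_eq_closure, Subgroup.closure_le]
          rintro g ⟨x, hx, u, hg⟩
          have h1 : u * x⁻¹ * u⁻¹ ∈ P := by
            have h2 : u * x⁻¹ * u⁻¹ = x⁻¹ * (g : G) := by
              rw [hg, commutatorElement_def]
              group
            rw [h2]
            exact P.mul_mem (P.inv_mem hx) g.2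
          obtain ⟨y, hy, hxy⟩ := hFC p G hp hHN P x⁻¹ u (P.inv_mem hx) h1
          have h3 : g = ⁅(⟨x, hx⟩ : P), (⟨y, hy⟩ : P)⁆ := by
            apply Subtype.ext
            rw [hg]
            have h4 : ((⁅(⟨x, hx⟩ : P), (⟨y, hy⟩ : P)⁆ : P) : G) = ⁅x, y⁆ := rfl
            rw [h4, commutatorElement_def, commutatorElement_def]
            calc x * u * x⁻¹ * u⁻¹ = x * (u * x⁻¹ * u⁻¹) := by group
              _ = x * (y * x⁻¹ * y⁻¹) := by rw [hxy]
              _ = x * y * x⁻¹ * y⁻¹ := by group
          rw [SetLike.mem_coe, h3]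
          exact Subgroup.commutator_mem_commutator (Subgroup.mem_top _) (Subgroup.mem_top _)
        have : Nontrivial P := (Subgroup.nontrivial_iff_ne_bot _).2 hP
        have : Group.IsNilpotent P := P.2.isNilpotent
        have hlt : commutator P < ⊤ := Group.IsSolvable.commutator_lt_top_of_nontrivial P
        have hne : P.focalSubgroupOf ≠ ⊤ := fun h => by
          rw [h] at hfoc
          exact absurd hlt (not_lt_of_ge hfoc)
        have hQ : Nontrivial (P ⧸ P.focalSubgroupOf) :=
          QuotientGroup.nontrivial_iff.2 hne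
        set M : Subgroup G := P.transferFocal.ker with hM
        have hMn : M.Normal := MonoidHom.normal_ker _
        have hsurj := Subgroup.transferFocal_surjective P
        have hidx : M.index = Nat.card (P ⧸ P.focalSubgroupOf) := by
          rw [hM, Subgroup.index_ker, MonoidHom.range_eq_top.2 hsurj, Subgroup.card_top]
        have hpow : ∃ k : ℕ, M.index = p ^ k := by
          rw [hidx]
          exact (IsPGroup.iff_card (p := p)).1 (P.2.to_quotient P.focalSubgroupOf)
        have hMt : M ≠ ⊤ := by
          intro h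
          rw [h, Subgroup.index_top] at hidx
          have := Finite.one_lt_card (α := P ⧸ P.focalSubgroupOf)
          omega
        have hcard : Nat.card M < n := by
          rw [← hn]
          exact lt_of_le_of_ne (Subgroup.card_le_card_group M)
            fun h => hMt (Subgroup.eq_top_of_card_eq M h)
        exact hPBb.2.2 p G M hp hMn hpow (ih _ hcard M rfl (HN_sub hPBa p hp G hHN M))
  exact key _ G₀ rfl hG₀

end Pool.Agent.helper37.TH
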